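import Pool.Agent.Helper857.ArcE

set_option autoImplicit false

namespace Pool.Agent.Results.MP_4d4852_co.LongArcs

open Pool.Agent.Helper857.Arc

/-- For every length `L` with `π ≤ L < 2π` there is no family of pairwise disjoint closed
great-circle arcs of length `L` on the unit sphere of `ℝ³` whose union is the whole sphere. -/
theorem result (L : ℝ) (hL1 : Real.pi ≤ L) (hL2 : L < 2 * Real.pi) :
    ¬ ∃ A : Set (Set (EuclideanSpace ℝ (Fin 3))),
        (∀ a ∈ A, ∃ u v : EuclideanSpace ℝ (Fin 3),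
            ‖u‖ = 1 ∧ ‖v‖ = 1 ∧ inner ℝ u v = (0 : ℝ) ∧
            a = (fun t : ℝ => Real.cos t • u + Real.sin t • v) '' Set.Icc 0 L) ∧
        A.PairwiseDisjoint id ∧
        ⋃₀ A = Metric.sphere (0 : EuclideanSpace ℝ (Fin 3)) 1 := by
  rintro ⟨A, hA, hdis, hcov⟩
  have hA' : ∀ a ∈ A, ∃ u v : E, Fr u v ∧ a = arc L u v := by
    intro a ha
    obtain ⟨u, v, h1, h2, h3, h4⟩ := hA a ha
    exact ⟨u, v, ⟨(norm_one_iff u).mp h1, (norm_one_iff v).mp h2, by rw [← inner_eq]; exact h3⟩, h4⟩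
  have hcov' : ∀ x : E, dt x x = 1 → ∃ a ∈ A, x ∈ a := by
    intro x hx
    have : x ∈ ⋃₀ A := by
      rw [hcov, mem_sphere_zero_iff_norm, norm_one_iff]
      exact hx
    obtain ⟨a, ha, hxa⟩ := this
    exact ⟨a, ha, hxa⟩
  rcases eq_or_lt_of_le hL1 with h | h
  · subst h
    exact at_pi A hA' hdis hcov'
  · exact gt_pi L h hL2 A hA' hdis hcov'

end Pool.Agent.Results.MP_4d4852_co.LongArcs
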