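import Mathlib

set_option autoImplicit false

namespace Pool.Agent.Results.MP_4d4852_co.NoLongArcs

open Set Real Filter Topology

abbrev E3 := EuclideanSpace ℝ (Fin 3)

/-- point of the great circle spanned by `u`, `v` -/
noncomputable def pt (u v : E3) (t : ℝ) : E3 := Real.cos t • u + Real.sin t • v

lemma exists_angle {p q : ℝ} (h : p ^ 2 + q ^ 2 = 1) :
    ∃ τ : ℝ, |τ| ≤ π ∧ cos τ = p ∧ sin τ = q := by
  have hn : ‖(⟨p, q⟩ : ℂ)‖ = 1 := by
    rw [Complex.norm_def, Complex.normSq_mk, Real.sqrt_eq_one]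
    nlinarith
  have hne : (⟨p, q⟩ : ℂ) ≠ 0 := by
    intro h0; rw [h0] at hn; simp at hn
  refine ⟨Complex.arg ⟨p, q⟩, Complex.abs_arg_le_pi _, ?_, ?_⟩
  · rw [Complex.cos_arg hne, hn]; simp
  · rw [Complex.sin_arg, hn]; simp

/-- a unit vector of the plane close to the centre of the arc lies in the arc -/
lemma mem_arc {u v : E3} {L p q : ℝ} (hL0 : 0 < L) (hL : L < 2 * π) (h : p ^ 2 + q ^ 2 = 1)
    (hc : cos (L / 2) ≤ p * cos (L / 2) + q * sin (L / 2)) :
    p • u + q • v ∈ pt u v '' Icc 0 L := by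
  have hcs := Real.cos_sq_add_sin_sq (L / 2)
  obtain ⟨τ, hτ, hcos, hsin⟩ := exists_angle (p := p * cos (L / 2) + q * sin (L / 2))
    (q := -p * sin (L / 2) + q * cos (L / 2)) (by nlinarith)
  have h1 : |τ| ≤ L / 2 := by
    by_contra hcon
    push Not at hcon
    have := Real.strictAntiOn_cos (a := L / 2) (b := |τ|) ⟨by linarith, by linarith⟩
      ⟨abs_nonneg _, hτ⟩ hcon
    rw [Real.cos_abs, hcos] at this
    linarith
  rw [abs_le] at h1
  refine ⟨L / 2 + τ, ⟨by linarith, by linarith⟩, ?_⟩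
  have e1 : cos (L / 2 + τ) = p := by
    rw [Real.cos_add, hcos, hsin]
    linear_combination p * hcs
  have e2 : sin (L / 2 + τ) = q := by
    rw [Real.sin_add, hcos, hsin]
    linear_combination q * hcs
  simp only [pt]
  rw [e1, e2]

lemma norm_sq_comb {u v : E3} (hu : ‖u‖ = 1) (hv : ‖v‖ = 1) (huv : inner ℝ u v = (0 : ℝ))
    (p q : ℝ) : ‖p • u + q • v‖ ^ 2 = p ^ 2 + q ^ 2 := by
  rw [norm_add_sq_real, inner_smul_left, inner_smul_right, huv, norm_smul, norm_smul, hu, hv]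
  simp

/-- two great circles share a point -/
lemma common {u v u' v' : E3} (hu : ‖u‖ = 1) (hv : ‖v‖ = 1) (huv : inner ℝ u v = (0 : ℝ))
    (hu' : ‖u'‖ = 1) (hv' : ‖v'‖ = 1) (huv' : inner ℝ u' v' = (0 : ℝ)) :
    ∃ p q p' q' : ℝ, p ^ 2 + q ^ 2 = 1 ∧ p' ^ 2 + q' ^ 2 = 1 ∧
      p • u + q • v = p' • u' + q' • v' := by
  have h1 : ¬ LinearIndependent ℝ ![u, v, u', v'] := by
    intro h
    have := h.fintype_card_le_finrank
    simp at this
  rw [Fintype.not_linearIndependent_iff] at h1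
  obtain ⟨g, hg, i, hi⟩ := h1
  rw [Fin.sum_univ_four] at hg
  simp only [Matrix.cons_val_zero, Matrix.cons_val_one, Matrix.cons_val] at hg
  have e1 : g 0 • u + g 1 • v = (-g 2) • u' + (-g 3) • v' := by
    rw [neg_smul, neg_smul, ← sub_eq_zero, ← hg]; abel
  have n1 := norm_sq_comb hu hv huv (g 0) (g 1)
  have n2 := norm_sq_comb hu' hv' huv' (-g 2) (-g 3)
  rw [← e1, n1] at n2
  set r := Real.sqrt (g 0 ^ 2 + g 1 ^ 2) with hr
  have hpos : 0 < g 0 ^ 2 + g 1 ^ 2 := by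
    by_contra hcon
    have h0 : g 0 ^ 2 + g 1 ^ 2 = 0 := le_antisymm (not_lt.1 hcon) (by positivity)
    have a0 : g 0 = 0 := by nlinarith [sq_nonneg (g 0), sq_nonneg (g 1)]
    have a1 : g 1 = 0 := by nlinarith [sq_nonneg (g 0), sq_nonneg (g 1)]
    have a2 : g 2 = 0 := by nlinarith [sq_nonneg (g 2), sq_nonneg (g 3)]
    have a3 : g 3 = 0 := by nlinarith [sq_nonneg (g 2), sq_nonneg (g 3)]
    apply hi
    fin_cases i <;> assumption
  have hr2 : r ^ 2 = g 0 ^ 2 + g 1 ^ 2 := Real.sq_sqrt hpos.le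
  have hrpos : 0 < r := Real.sqrt_pos.2 hpos
  refine ⟨r⁻¹ * g 0, r⁻¹ * g 1, r⁻¹ * (-g 2), r⁻¹ * (-g 3), ?_, ?_, ?_⟩
  · have : (r⁻¹ * g 0) ^ 2 + (r⁻¹ * g 1) ^ 2 = (r ^ 2)⁻¹ * (g 0 ^ 2 + g 1 ^ 2) := by ring
    rw [this, ← hr2]
    exact inv_mul_cancel₀ (by positivity)
  · have : (r⁻¹ * (-g 2)) ^ 2 + (r⁻¹ * (-g 3)) ^ 2 = (r ^ 2)⁻¹ * ((-g 2) ^ 2 + (-g 3) ^ 2) := by ring
    rw [this, ← n2, ← hr2]
    exact inv_mul_cancel₀ (by positivity)
  · rw [mul_smul, mul_smul, mul_smul, mul_smul, ← smul_add, ← smul_add, e1]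

/-- centre of the arc -/
noncomputable def cen (L : ℝ) (u v : E3) : E3 := pt u v (L / 2)

lemma norm_pt {u v : E3} (hu : ‖u‖ = 1) (hv : ‖v‖ = 1) (huv : inner ℝ u v = (0 : ℝ)) (t : ℝ) :
    ‖pt u v t‖ = 1 := by
  have h := norm_sq_comb hu hv huv (cos t) (sin t)
  rw [Real.cos_sq_add_sin_sq] at h
  have h0 : 0 ≤ ‖pt u v t‖ := norm_nonneg _
  have : ‖pt u v t‖ ^ 2 = 1 := h
  nlinarith

lemma inner_cen {u v : E3} (hu : ‖u‖ = 1) (hv : ‖v‖ = 1) (huv : inner ℝ u v = (0 : ℝ))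
    (L p q : ℝ) : inner ℝ (p • u + q • v) (cen L u v) = p * cos (L / 2) + q * sin (L / 2) := by
  have hvu : inner ℝ v u = (0 : ℝ) := by rw [real_inner_comm]; exact huv
  simp only [cen, pt, inner_add_left, inner_add_right, real_inner_smul_left,
    real_inner_smul_right, real_inner_self_eq_norm_sq, huv, hvu, hu, hv]
  ring

/-- centres of disjoint long arcs are far apart -/
lemma cen_far {L : ℝ} (hL1 : π < L) (hL : L < 2 * π) {u v u' v' : E3} (hu : ‖u‖ = 1)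
    (hv : ‖v‖ = 1) (huv : inner ℝ u v = (0 : ℝ)) (hu' : ‖u'‖ = 1) (hv' : ‖v'‖ = 1)
    (huv' : inner ℝ u' v' = (0 : ℝ))
    (hdisj : Disjoint (pt u v '' Icc 0 L) (pt u' v' '' Icc 0 L)) :
    -2 * cos (L / 2) ≤ dist (cen L u v) (cen L u' v') := by
  obtain ⟨p, q, p', q', h1, h2, hx⟩ := common hu hv huv hu' hv' huv'
  have hL0 : 0 < L := by linarith [Real.pi_pos]
  have hneg : cos (L / 2) < 0 := Real.cos_neg_of_pi_div_two_lt_of_lt (by linarith) (by linarith)
  set x := p • u + q • v with hxdef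
  have hxn : ‖x‖ = 1 := by
    have h := norm_sq_comb hu hv huv p q
    rw [h1] at h
    have h0 : 0 ≤ ‖x‖ := norm_nonneg _
    nlinarith
  have i1 : inner ℝ x (cen L u v) = p * cos (L / 2) + q * sin (L / 2) := inner_cen hu hv huv L p q
  have i2 : inner ℝ x (cen L u' v') = p' * cos (L / 2) + q' * sin (L / 2) := by
    rw [hx]; exact inner_cen hu' hv' huv' L p' q'
  -- membership
  have m1 : cos (L / 2) ≤ inner ℝ x (cen L u v) → x ∈ pt u v '' Icc 0 L := by
    intro h; rw [i1] at h; exact mem_arc hL0 hL h1 h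
  have m2 : cos (L / 2) ≤ inner ℝ x (cen L u' v') → x ∈ pt u' v' '' Icc 0 L := by
    intro h; rw [i2] at h; rw [hx]; exact mem_arc hL0 hL h2 h
  have m3 : cos (L / 2) ≤ -inner ℝ x (cen L u v) → -x ∈ pt u v '' Icc 0 L := by
    intro h; rw [i1] at h
    have := mem_arc (u := u) (v := v) hL0 hL (p := -p) (q := -q) (by nlinarith) (by linarith)
    rw [neg_smul, neg_smul, ← neg_add] at this
    exact this
  have m4 : cos (L / 2) ≤ -inner ℝ x (cen L u' v') → -x ∈ pt u' v' '' Icc 0 L := by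
    intro h; rw [i2] at h
    have := mem_arc (u := u') (v := v') hL0 hL (p := -p') (q := -q') (by nlinarith) (by linarith)
    rw [neg_smul, neg_smul, ← neg_add] at this
    rw [hx]
    exact this
  have hd : ∀ y, y ∈ pt u v '' Icc 0 L → y ∈ pt u' v' '' Icc 0 L → False := fun y h h' =>
    Set.disjoint_left.1 hdisj h h'
  have key : -2 * cos (L / 2) ≤ |inner ℝ x (cen L u v) - inner ℝ x (cen L u' v')| := by
    by_contra hcon
    rw [not_le, abs_lt] at hcon
    by_cases c1 : cos (L / 2) ≤ inner ℝ x (cen L u v)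
    · have c2 : ¬ cos (L / 2) ≤ inner ℝ x (cen L u' v') := fun c2 => hd x (m1 c1) (m2 c2)
      have c3 : cos (L / 2) ≤ -inner ℝ x (cen L u' v') := by linarith
      have c4 : ¬ cos (L / 2) ≤ -inner ℝ x (cen L u v) := fun c4 => hd _ (m3 c4) (m4 c3)
      linarith
    · have c3 : cos (L / 2) ≤ -inner ℝ x (cen L u v) := by linarith
      have c4 : ¬ cos (L / 2) ≤ -inner ℝ x (cen L u' v') := fun c4 => hd _ (m3 c3) (m4 c4)
      linarith
  rw [← inner_sub_right] at key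
  have := abs_real_inner_le_norm x (cen L u v - cen L u' v')
  rw [hxn, one_mul] at this
  rw [dist_eq_norm]
  linarith


/-- no partition into arcs longer than a half circle -/
theorem no_long (L : ℝ) (hL1 : π < L) (hL : L < 2 * π) :
    ¬ ∃ A : Set (Set E3),
        (∀ a ∈ A, ∃ u v : E3, ‖u‖ = 1 ∧ ‖v‖ = 1 ∧ inner ℝ u v = (0 : ℝ) ∧
            a = (fun t : ℝ => Real.cos t • u + Real.sin t • v) '' Set.Icc 0 L) ∧
        A.PairwiseDisjoint id ∧
        ⋃₀ A = Metric.sphere (0 : E3) 1 := by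
  rintro ⟨A, harc, hdisj, hcov⟩
  choose! U V hU hV hUV hA using harc
  have hneg : cos (L / 2) < 0 := Real.cos_neg_of_pi_div_two_lt_of_lt (by linarith) (by linarith)
  have hfin : A.Finite := by
    by_contra hinf
    have hinf : A.Infinite := hinf
    let f := hinf.natEmbedding
    let z : ℕ → E3 := fun n => cen L (U (f n)) (V (f n))
    have hz : ∀ n, z n ∈ Metric.sphere (0 : E3) 1 := by
      intro n
      rw [mem_sphere_zero_iff_norm]
      exact norm_pt (hU _ (f n).2) (hV _ (f n).2) (hUV _ (f n).2) _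
    obtain ⟨a, -, φ, hφ, hlim⟩ := (isCompact_sphere (0 : E3) 1).tendsto_subseq hz
    have hc := hlim.cauchySeq
    rw [Metric.cauchySeq_iff'] at hc
    obtain ⟨N, hN⟩ := hc (-2 * cos (L / 2)) (by linarith)
    have h1 := hN (N + 1) (by omega)
    have hne : (f (φ (N + 1)) : Set E3) ≠ f (φ N) := by
      intro h
      have := f.injective (Subtype.ext h)
      have := hφ.injective this
      omega
    have h2 := hdisj (f (φ (N + 1))).2 (f (φ N)).2 hne
    simp only [Function.onFun, id] at h2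
    rw [hA _ (f (φ (N + 1))).2, hA _ (f (φ N)).2] at h2
    have h3 := cen_far hL1 hL (hU _ (f (φ (N+1))).2) (hV _ (f (φ (N+1))).2)
      (hUV _ (f (φ (N+1))).2) (hU _ (f (φ N)).2) (hV _ (f (φ N)).2) (hUV _ (f (φ N)).2) h2
    simp only [Function.comp, z] at h1
    linarith
  classical
  let S : Set E3 → Submodule ℝ E3 := fun a => Submodule.span ℝ {U a, V a}
  let s : Finset (Submodule ℝ E3) := hfin.toFinset.image S
  have htop : ⊤ ∉ s := by
    intro h
    obtain ⟨a, -, ha⟩ := Finset.mem_image.1 h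
    have h1 : Module.finrank ℝ (S a) ≤ 2 := by
      have h2 := finrank_span_finset_le_card (R := ℝ) ({U a, V a} : Finset E3)
      rw [Finset.coe_pair] at h2
      exact h2.trans Finset.card_le_two
    rw [ha, finrank_top] at h1
    simp at h1
  apply Subspace.biUnion_ne_univ_of_top_notMem htop
  rw [Set.eq_univ_iff_forall]
  intro x
  by_cases hx : x = 0
  · -- use any arc
    have : (EuclideanSpace.single 0 1 : E3) ∈ ⋃₀ A := by
      rw [hcov]; simp
    obtain ⟨a, ha, -⟩ := this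
    refine mem_iUnion₂.2 ⟨S a, Finset.mem_image.2 ⟨a, by simpa using ha, rfl⟩, ?_⟩
    rw [hx]; exact (S a).zero_mem
  · have hn : ‖x‖ ≠ 0 := norm_ne_zero_iff.2 hx
    have : (‖x‖⁻¹ • x) ∈ ⋃₀ A := by
      rw [hcov, mem_sphere_zero_iff_norm, norm_smul, norm_inv, norm_norm]
      exact inv_mul_cancel₀ hn
    obtain ⟨a, ha, hxa⟩ := this
    refine mem_iUnion₂.2 ⟨S a, Finset.mem_image.2 ⟨a, by simpa using ha, rfl⟩, ?_⟩
    rw [hA a ha] at hxa
    obtain ⟨t, -, ht⟩ := hxa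
    have h1 : ‖x‖⁻¹ • x ∈ S a := by
      rw [← ht]
      refine (S a).add_mem ((S a).smul_mem _ ?_) ((S a).smul_mem _ ?_)
      · exact Submodule.subset_span (by simp)
      · exact Submodule.subset_span (by simp)
    have h2 := (S a).smul_mem ‖x‖ h1
    rw [smul_smul, mul_inv_cancel₀ hn, one_smul] at h2
    exact h2

/-- The two conditions on the dual curve. -/
structure Dual (g y : ℝ → ℝ) : Prop where
  ch : ∀ s t, s ≠ t → 0 < (g t - g s - y s * (t - s)) * (g s - g t - y t * (s - t))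
  low : ∀ Y c, ∃ t, g t = Y * t + c ∧ y t ≤ Y
  upp : ∀ Y c, ∃ t, g t = Y * t + c ∧ Y ≤ y t

lemma Dual.neg {g y : ℝ → ℝ} (h : Dual g y) : Dual (fun t => - g t) (fun t => - y t) := by
  refine ⟨?_, ?_, ?_⟩
  · intro s t hst
    have := h.ch s t hst
    have e : (-g t - -g s - -y s * (t - s)) * (-g s - -g t - -y t * (s - t)) =
      (g t - g s - y s * (t - s)) * (g s - g t - y t * (s - t)) := by ring
    rw [e]; exact this
  · intro Y c
    obtain ⟨t, h1, h2⟩ := h.upp (-Y) (-c)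
    exact ⟨t, by rw [h1]; ring, by linarith⟩
  · intro Y c
    obtain ⟨t, h1, h2⟩ := h.low (-Y) (-c)
    exact ⟨t, by rw [h1]; ring, by linarith⟩

/-- tangents through a common point -/
lemma Dual.two_tan {g y : ℝ → ℝ} (h : Dual g y) {t0 γ s t : ℝ} (hst : s ≠ t)
    (hs : γ = g s + y s * (t0 - s)) (ht : γ = g t + y t * (t0 - t)) :
    (s - t0) * (t - t0) < 0 := by
  have h1 := h.ch s t hst
  have e1 : g t - g s - y s * (t - s) = (t - t0) * (y t - y s) := by
    linear_combination hs - ht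
  have e2 : g s - g t - y t * (s - t) = (s - t0) * (y s - y t) := by
    linear_combination ht - hs
  rw [e1, e2] at h1
  have e3 : (t - t0) * (y t - y s) * ((s - t0) * (y s - y t)) =
    - ((s - t0) * (t - t0) * (y t - y s) ^ 2) := by ring
  rw [e3] at h1
  by_contra hcon
  push Not at hcon
  have := mul_nonneg hcon (sq_nonneg (y t - y s))
  linarith

lemma Dual.three_tan {g y : ℝ → ℝ} (h : Dual g y) {t0 γ s t r : ℝ} (hst : s ≠ t) (hsr : s ≠ r)
    (htr : t ≠ r)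
    (hs : γ = g s + y s * (t0 - s)) (ht : γ = g t + y t * (t0 - t))
    (hr : γ = g r + y r * (t0 - r)) : False := by
  have h1 := h.two_tan hst hs ht
  have h2 := h.two_tan hsr hs hr
  have h3 := h.two_tan htr ht hr
  have h4 : 0 < ((s - t0) * (t - t0)) * ((s - t0) * (r - t0)) := mul_pos_of_neg_of_neg h1 h2
  have h5 : ((s - t0) * (t - t0)) * ((s - t0) * (r - t0)) * ((t - t0) * (r - t0)) < 0 :=
    mul_neg_of_pos_of_neg h4 h3
  have e : ((s - t0) * (t - t0)) * ((s - t0) * (r - t0)) * ((t - t0) * (r - t0)) =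
    ((s - t0) * (t - t0) * (r - t0)) ^ 2 := by ring
  rw [e] at h5
  linarith [sq_nonneg ((s - t0) * (t - t0) * (r - t0))]

/-- a ghost forces tangents -/
lemma Dual.tan {g y : ℝ → ℝ} (h : Dual g y) {U : Filter ℝ} [U.NeBot] {t0 γ : ℝ}
    (hU : U ≤ 𝓝 t0) (hg : Tendsto g U (𝓝 γ)) (hne : γ ≠ g t0) {Y1 Y0 : ℝ} (hY : Y1 < Y0)
    (hev : ∀ᶠ k in U, y k ≤ Y1) : ∃ t, y t = Y0 ∧ γ = g t + y t * (t0 - t) := by
  obtain ⟨t, h1, h2⟩ := h.low Y0 (γ - Y0 * t0)
  have ht0 : t ≠ t0 := by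
    rintro rfl
    apply hne; rw [h1]; ring
  rcases h2.lt_or_eq with h2 | h2
  · exfalso
    have hid : Tendsto (fun k : ℝ => k) U (𝓝 t0) := hU
    -- limits
    have l1 : Tendsto (fun k => g k - g t - y t * (k - t)) U (𝓝 ((t - t0) * (y t - Y0))) := by
      have : Tendsto (fun k => g k - g t - y t * (k - t)) U
          (𝓝 (γ - g t - y t * (t0 - t))) := (hg.sub_const _).sub ((hid.sub_const _).const_mul _)
      have e : γ - g t - y t * (t0 - t) = (t - t0) * (y t - Y0) := by rw [h1]; ring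
      rwa [e] at this
    have l2 : Tendsto (fun k => g t - g k - Y1 * (t - k)) U (𝓝 ((t - t0) * (Y0 - Y1))) := by
      have : Tendsto (fun k => g t - g k - Y1 * (t - k)) U
          (𝓝 (g t - γ - Y1 * (t - t0))) := (hg.const_sub _).sub ((hid.const_sub _).const_mul _)
      have e : g t - γ - Y1 * (t - t0) = (t - t0) * (Y0 - Y1) := by rw [h1]; ring
      rwa [e] at this
    have hne' : ∀ᶠ k in U, k ≠ t := hid.eventually_ne ht0.symm
    rcases lt_or_gt_of_ne ht0 with hlt | hgt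
    · -- t < t0
      have a1 : 0 < (t - t0) * (y t - Y0) := mul_pos_of_neg_of_neg (by linarith) (by linarith)
      have a2 : (t - t0) * (Y0 - Y1) < 0 := mul_neg_of_neg_of_pos (by linarith) (by linarith)
      have b1 := l1.eventually_const_lt a1
      have b2 := l2.eventually_lt_const a2
      have b3 := hid.eventually_const_lt hlt
      obtain ⟨k, hk1, hk2, hk3, hk4, hk5⟩ := (b1.and (b2.and (b3.and (hev.and hne')))).exists
      have hch := h.ch k t hk5
      have : g t - g k - y k * (t - k) ≤ g t - g k - Y1 * (t - k) := by nlinarith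
      have hneg : g t - g k - y k * (t - k) < 0 := by linarith
      have := mul_neg_of_neg_of_pos hneg hk1
      linarith
    · have a1 : (t - t0) * (y t - Y0) < 0 := mul_neg_of_pos_of_neg (by linarith) (by linarith)
      have a2 : 0 < (t - t0) * (Y0 - Y1) := mul_pos (by linarith) (by linarith)
      have b1 := l1.eventually_lt_const a1
      have b2 := l2.eventually_const_lt a2
      have b3 := hid.eventually_lt_const hgt
      obtain ⟨k, hk1, hk2, hk3, hk4, hk5⟩ := (b1.and (b2.and (b3.and (hev.and hne')))).exists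
      have hch := h.ch k t hk5
      have : g t - g k - Y1 * (t - k) ≤ g t - g k - y k * (t - k) := by nlinarith
      have hpos : 0 < g t - g k - y k * (t - k) := by linarith
      have := mul_neg_of_pos_of_neg hpos hk1
      linarith
  · exact ⟨t, h2, by rw [h1, h2]; ring⟩

lemma Dual.no_ghost_aux {g y : ℝ → ℝ} (h : Dual g y) {U : Filter ℝ} [U.NeBot] {t0 γ : ℝ}
    (hU : U ≤ 𝓝 t0) (hg : Tendsto g U (𝓝 γ)) (hne : γ ≠ g t0) {Y1 : ℝ}
    (hev : ∀ᶠ k in U, y k ≤ Y1) : False := by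
  obtain ⟨s, hs, hs'⟩ := h.tan hU hg hne (show Y1 < Y1 + 1 by linarith) hev
  obtain ⟨t, ht, ht'⟩ := h.tan hU hg hne (show Y1 < Y1 + 2 by linarith) hev
  obtain ⟨r, hr, hr'⟩ := h.tan hU hg hne (show Y1 < Y1 + 3 by linarith) hev
  refine h.three_tan (s := s) (t := t) (r := r) ?_ ?_ ?_ hs' ht' hr'
  · rintro rfl; rw [hs] at ht; linarith
  · rintro rfl; rw [hs] at hr; linarith
  · rintro rfl; rw [ht] at hr; linarith

lemma Dual.no_ghost {g y : ℝ → ℝ} (h : Dual g y) {U : Ultrafilter ℝ} {t0 γ : ℝ}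
    (hU : (U : Filter ℝ) ≤ 𝓝 t0) (hg : Tendsto g U (𝓝 γ)) : γ = g t0 := by
  by_contra hne
  rcases U.em (fun k => y k ≤ 0) with hev | hev
  · exact h.no_ghost_aux hU hg hne hev
  · refine h.neg.no_ghost_aux (U := U) hU (γ := -γ) hg.neg (fun h' => hne (neg_injective h'))
      (Y1 := 0) ?_
    filter_upwards [hev] with k hk
    linarith [not_le.1 hk]

/-- no escape to infinity -/
lemma Dual.no_escape {g y : ℝ → ℝ} (h : Dual g y) {U : Filter ℝ} [U.NeBot] {t0 : ℝ}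
    (hU : U ≤ 𝓝 t0) (hg : Tendsto g U atTop) : False := by
  have hid : Tendsto (fun k : ℝ => k) U (𝓝 t0) := hU
  have c1 : Tendsto (fun k => g k - g (t0 - 1) - y (t0 - 1) * (k - (t0 - 1))) U atTop := by
    have : Tendsto (fun k => -(g (t0 - 1) + y (t0 - 1) * (k - (t0 - 1)))) U
        (𝓝 (-(g (t0 - 1) + y (t0 - 1) * (t0 - (t0 - 1))))) :=
      (((hid.sub_const _).const_mul _).const_add _).neg
    have h2 := hg.atTop_add this
    refine h2.congr (fun k => by ring)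
  have c2 : Tendsto (fun k => g k - g (t0 + 1) - y (t0 + 1) * (k - (t0 + 1))) U atTop := by
    have : Tendsto (fun k => -(g (t0 + 1) + y (t0 + 1) * (k - (t0 + 1)))) U
        (𝓝 (-(g (t0 + 1) + y (t0 + 1) * (t0 - (t0 + 1))))) :=
      (((hid.sub_const _).const_mul _).const_add _).neg
    have h2 := hg.atTop_add this
    refine h2.congr (fun k => by ring)
  have d1 := c1.eventually_gt_atTop 0
  have d2 := c2.eventually_gt_atTop 0
  have d3 := hg.eventually_gt_atTop (g (t0 - 1))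
  have d4 := hg.eventually_gt_atTop (g (t0 + 1))
  have d5 := hid.eventually_const_lt (show t0 - 1 < t0 by linarith)
  have d6 := hid.eventually_lt_const (show t0 < t0 + 1 by linarith)
  obtain ⟨k, k1, k2, k3, k4, k5, k6⟩ := (d1.and (d2.and (d3.and (d4.and (d5.and d6))))).exists
  have e1 := h.ch k (t0 - 1) k5.ne'
  have e2 := h.ch k (t0 + 1) k6.ne
  have f1 : 0 < g (t0 - 1) - g k - y k * (t0 - 1 - k) := by
    by_contra hcon
    have := mul_nonpos_of_nonpos_of_nonneg (not_lt.1 hcon) k1.le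
    linarith
  have f2 : 0 < g (t0 + 1) - g k - y k * (t0 + 1 - k) := by
    by_contra hcon
    have := mul_nonpos_of_nonpos_of_nonneg (not_lt.1 hcon) k2.le
    linarith
  have g1 : 0 < y k := by
    by_contra hcon
    have := mul_nonneg_of_nonpos_of_nonpos (not_lt.1 hcon) (show t0 - 1 - k ≤ 0 by linarith)
    linarith
  have := mul_pos g1 (show 0 < t0 + 1 - k by linarith)
  linarith

lemma Dual.cont {g y : ℝ → ℝ} (h : Dual g y) : Continuous g := by
  rw [continuous_iff_continuousAt]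
  intro t0
  rw [ContinuousAt, tendsto_iff_ultrafilter]
  intro U hU
  by_cases hb : ∃ R, ∀ᶠ k in (U : Filter ℝ), g k ∈ Icc (-R) R
  · obtain ⟨R, hR⟩ := hb
    obtain ⟨γ, -, hγ⟩ := (isCompact_Icc (a := -R) (b := R)).ultrafilter_le_nhds (U.map g)
      (by rw [le_principal_iff]; exact hR)
    have hγ' : Tendsto g U (𝓝 γ) := hγ
    rw [← h.no_ghost hU hγ']
    exact hγ'
  · exfalso
    have hb' : ∀ R, ∀ᶠ k in (U : Filter ℝ), ¬ g k ∈ Icc (-R) R := by
      intro R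
      rcases U.em (fun k => g k ∈ Icc (-R) R) with h1 | h1
      · exact absurd ⟨R, h1⟩ hb
      · exact h1
    rcases U.em (fun k => 0 ≤ g k) with h1 | h1
    · apply h.no_escape (U := U) hU
      rw [tendsto_atTop]
      intro b
      filter_upwards [hb' |b|, h1] with k hk hk'
      by_contra hcon
      push Not at hcon
      exact hk ⟨by linarith [abs_nonneg b], by linarith [le_abs_self b]⟩
    · apply h.neg.no_escape (U := U) hU
      rw [tendsto_atTop]
      intro b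
      filter_upwards [hb' |b|, h1] with k hk hk'
      by_contra hcon
      push Not at hcon hk'
      exact hk ⟨by linarith [le_abs_self b], by linarith [abs_nonneg b]⟩

lemma sign_const {f : ℝ → ℝ} {S : Set ℝ} (hS : IsPreconnected S) (hf : ContinuousOn f S)
    (hne : ∀ t ∈ S, f t ≠ 0) {a b : ℝ} (ha : a ∈ S) (hb : b ∈ S) (h : 0 < f a) : 0 < f b := by
  by_contra hcon
  have h1 : f b ≤ 0 := not_lt.1 hcon
  have h2 := hS.intermediate_value hb ha hf
  obtain ⟨t, ht, ht'⟩ := h2 (show (0:ℝ) ∈ Icc (f b) (f a) from ⟨h1, h.le⟩)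
  exact hne t ht ht'

lemma Dual.false_aux {g y : ℝ → ℝ} (h : Dual g y) (h01 : 0 < g 1 - g 0 - y 0 * (1 - 0)) :
    False := by
  have hc := h.cont
  have ne1 : ∀ s t, s ≠ t → g t - g s - y s * (t - s) ≠ 0 := by
    intro s t hst h0
    have := h.ch s t hst
    rw [h0, zero_mul] at this
    exact lt_irrefl _ this
  have sw : ∀ s t, s ≠ t → 0 < g t - g s - y s * (t - s) → 0 < g s - g t - y t * (s - t) := by
    intro s t hst h0
    by_contra hcon
    have := mul_nonpos_of_nonneg_of_nonpos h0.le (not_lt.1 hcon)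
    linarith [h.ch s t hst]
  have cs : ∀ s, Continuous (fun t => g t - g s - y s * (t - s)) := fun s => by fun_prop
  -- for fixed left point
  have r1 : ∀ s t t', s < t → s < t' → 0 < g t - g s - y s * (t - s) →
      0 < g t' - g s - y s * (t' - s) := by
    intro s t t' h1 h2 h3
    exact sign_const (f := fun t => g t - g s - y s * (t - s)) isPreconnected_Ioi
      (cs s).continuousOn (fun t ht => ne1 s t (ne_of_lt ht)) h1 h2 h3
  have r2 : ∀ t s s', s < t → s' < t → 0 < g s - g t - y t * (s - t) →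
      0 < g s' - g t - y t * (s' - t) := by
    intro t s s' h1 h2 h3
    exact sign_const (f := fun s => g s - g t - y t * (s - t)) isPreconnected_Iio
      (cs t).continuousOn (fun s hs => ne1 t s (ne_of_gt hs)) h1 h2 h3
  have all : ∀ s t, s < t → 0 < g t - g s - y s * (t - s) := by
    intro s t hst
    set T := max 1 (max s t) + 1 with hT
    have hT1 : (1:ℝ) < T := by
      have := le_max_left (1:ℝ) (max s t); linarith
    have hTs : s < T := by
      have := le_max_right (1:ℝ) (max s t)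
      have := le_max_left s t; linarith
    have a1 := r1 0 1 T (by norm_num) (by linarith) h01
    have a2 := sw 0 T (by linarith) a1
    have a3 := r2 T 0 s (by linarith) hTs a2
    have a4 := sw T s hTs.ne' a3
    exact r1 s T t hTs hst a4
  obtain ⟨t, ht, -⟩ := h.low (y 0) (g 0 - 1)
  rcases lt_trichotomy t 0 with h1 | h1 | h1
  · have := sw t 0 h1.ne (all t 0 h1)
    rw [ht] at this; nlinarith
  · rw [h1] at ht; linarith
  · have := all 0 t h1
    rw [ht] at this; nlinarith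

theorem Dual.false {g y : ℝ → ℝ} (h : Dual g y) : False := by
  rcases lt_trichotomy 0 (g 1 - g 0 - y 0 * (1 - 0)) with h1 | h1 | h1
  · exact h.false_aux h1
  · have := h.ch 0 1 (by norm_num)
    rw [← h1, zero_mul] at this
    exact lt_irrefl _ this
  · apply h.neg.false_aux
    linarith


section algebra

/-- membership predicate in the dual coordinates -/
def InArc (t g y x1 x2 x3 : ℝ) : Prop :=
  x1 + t * x2 + g * x3 = 0 ∧
    0 ≤ x1 * (t + g * y) + x2 * (g * t * y - g ^ 2 - 1) + x3 * (-y - t ^ 2 * y + t * g)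

lemma InArc.scale {t g y x1 x2 x3 r : ℝ} (hr : 0 < r) :
    InArc t g y (r * x1) (r * x2) (r * x3) ↔ InArc t g y x1 x2 x3 := by
  unfold InArc
  have e1 : r * x1 + t * (r * x2) + g * (r * x3) = r * (x1 + t * x2 + g * x3) := by ring
  have e2 : r * x1 * (t + g * y) + r * x2 * (g * t * y - g ^ 2 - 1) +
      r * x3 * (-y - t ^ 2 * y + t * g) =
      r * (x1 * (t + g * y) + x2 * (g * t * y - g ^ 2 - 1) + x3 * (-y - t ^ 2 * y + t * g)) := by
    ring
  rw [e1, e2, mul_eq_zero, mul_nonneg_iff_of_pos_left hr]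
  constructor
  · rintro ⟨h | h, h'⟩
    · exact absurd h hr.ne'
    · exact ⟨h, h'⟩
  · rintro ⟨h, h'⟩
    exact ⟨Or.inr h, h'⟩

lemma inArc_up {t g y Y c : ℝ} : InArc t g y (-c) (-Y) 1 ↔ (g = Y * t + c ∧ y ≤ Y) := by
  unfold InArc
  constructor
  · rintro ⟨h1, h2⟩
    have hc : c = g - Y * t := by linarith
    subst hc
    have e : -(g - Y * t) * (t + g * y) + -Y * (g * t * y - g ^ 2 - 1) +
      1 * (-y - t ^ 2 * y + t * g) = (1 + t ^ 2 + g ^ 2) * (Y - y) := by ring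
    rw [e] at h2
    refine ⟨by ring, ?_⟩
    by_contra hcon
    push Not at hcon
    have := mul_neg_of_pos_of_neg (show 0 < 1 + t ^ 2 + g ^ 2 by positivity)
      (show Y - y < 0 by linarith)
    linarith
  · rintro ⟨h1, h2⟩
    refine ⟨by rw [h1]; ring, ?_⟩
    have hc : c = g - Y * t := by linarith
    subst hc
    have e : -(g - Y * t) * (t + g * y) + -Y * (g * t * y - g ^ 2 - 1) +
      1 * (-y - t ^ 2 * y + t * g) = (1 + t ^ 2 + g ^ 2) * (Y - y) := by ring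
    rw [e]
    exact mul_nonneg (by positivity) (by linarith)

lemma inArc_down {t g y Y c : ℝ} : InArc t g y c Y (-1) ↔ (g = Y * t + c ∧ Y ≤ y) := by
  unfold InArc
  constructor
  · rintro ⟨h1, h2⟩
    have hc : c = g - Y * t := by linarith
    subst hc
    have e : (g - Y * t) * (t + g * y) + Y * (g * t * y - g ^ 2 - 1) +
      (-1) * (-y - t ^ 2 * y + t * g) = (1 + t ^ 2 + g ^ 2) * (y - Y) := by ring
    rw [e] at h2
    refine ⟨by ring, ?_⟩
    by_contra hcon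
    push Not at hcon
    have := mul_neg_of_pos_of_neg (show 0 < 1 + t ^ 2 + g ^ 2 by positivity)
      (show y - Y < 0 by linarith)
    linarith
  · rintro ⟨h1, h2⟩
    refine ⟨by rw [h1]; ring, ?_⟩
    have hc : c = g - Y * t := by linarith
    subst hc
    have e : (g - Y * t) * (t + g * y) + Y * (g * t * y - g ^ 2 - 1) +
      (-1) * (-y - t ^ 2 * y + t * g) = (1 + t ^ 2 + g ^ 2) * (y - Y) := by ring
    rw [e]
    exact mul_nonneg (by positivity) (by linarith)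

lemma inArc_eq {t g y s : ℝ} : InArc t g y s (-1) 0 ↔ s = t := by
  unfold InArc
  constructor
  · rintro ⟨h1, -⟩; linarith
  · rintro rfl
    refine ⟨by ring, ?_⟩
    have e : s * (s + g * y) + -1 * (g * s * y - g ^ 2 - 1) + 0 * (-y - s ^ 2 * y + s * g) =
      1 + s ^ 2 + g ^ 2 := by ring
    rw [e]; positivity

/-- parameters of an arc disjoint from the standard one -/
lemma params {a1 a2 a3 b1 b2 b3 : ℝ} (haa : a1 ^ 2 + a2 ^ 2 + a3 ^ 2 = 1)
    (hbb : b1 ^ 2 + b2 ^ 2 + b3 ^ 2 = 1) (hab : a1 * b1 + a2 * b2 + a3 * b3 = 0)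
    (hD : ∀ x1 x2 : ℝ, x1 ^ 2 + x2 ^ 2 = 1 → 0 ≤ x2 →
      x1 * (a2 * b3 - a3 * b2) + x2 * (a3 * b1 - a1 * b3) = 0 → ¬ 0 ≤ x1 * b1 + x2 * b2) :
    ∃ t g y : ℝ, ∀ x1 x2 x3 : ℝ,
      (x1 * (a2 * b3 - a3 * b2) + x2 * (a3 * b1 - a1 * b3) + x3 * (a1 * b2 - a2 * b1) = 0 ∧
        0 ≤ x1 * b1 + x2 * b2 + x3 * b3) ↔ InArc t g y x1 x2 x3 := by
  set N1 := a2 * b3 - a3 * b2 with hN1
  set N2 := a3 * b1 - a1 * b3 with hN2
  set N3 := a1 * b2 - a2 * b1 with hN3
  have i1 : b1 = N2 * a3 - N3 * a2 := by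
    rw [hN2, hN3]
    linear_combination (-b1) * haa + a1 * hab
  have i2 : b2 = N3 * a1 - N1 * a3 := by
    rw [hN1, hN3]
    linear_combination (-b2) * haa + a2 * hab
  have i3 : b3 = N1 * a2 - N2 * a1 := by
    rw [hN1, hN2]
    linear_combination (-b3) * haa + a3 * hab
  have iaN : a1 * N1 + a2 * N2 + a3 * N3 = 0 := by rw [hN1, hN2, hN3]; ring
  have hN1ne : N1 ≠ 0 := by
    intro h
    have c1 := hD 1 0 (by norm_num) le_rfl (by rw [h]; ring)
    have c2 := hD (-1) 0 (by norm_num) le_rfl (by rw [h]; ring)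
    push Not at c1 c2
    linarith
  have ha3 : a3 ≠ 0 := by
    intro h
    rw [h] at haa hab iaN
    rcases le_total 0 a2 with h2 | h2
    · exact hD a1 a2 (by linarith) h2 (by linarith) (by linarith)
    · exact hD (-a1) (-a2) (by nlinarith) (by linarith) (by linarith) (by linarith)
  set t := N2 / N1 with ht
  set g := N3 / N1 with hg
  set y := - a2 / a3 with hy
  have e2 : N2 = t * N1 := by rw [ht]; field_simp
  have e3 : N3 = g * N1 := by rw [hg]; field_simp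
  have f2 : a2 = - y * a3 := by rw [hy]; field_simp
  clear_value t g y
  have f1 : a1 = (y * t - g) * a3 := by
    have : N1 * (a1 - (y * t - g) * a3) = 0 := by
      rw [e2, e3, f2] at iaN
      linear_combination iaN
    rcases mul_eq_zero.1 this with h | h
    · exact absurd h hN1ne
    · linarith
  have g1 : b1 = (N1 * a3) * (t + g * y) := by rw [i1, e2, e3, f2]; ring
  have g2 : b2 = (N1 * a3) * (g * t * y - g ^ 2 - 1) := by rw [i2, e3, f1]; ring
  have g3 : b3 = (N1 * a3) * (-y - t ^ 2 * y + t * g) := by rw [i3, e2, f1, f2]; ring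
  have hpos : 0 < N1 * a3 := by
    have hρ : 0 < Real.sqrt (1 + t ^ 2) := Real.sqrt_pos.2 (by positivity)
    have hρ2 : Real.sqrt (1 + t ^ 2) ^ 2 = 1 + t ^ 2 := Real.sq_sqrt (by positivity)
    have c := hD (-t / Real.sqrt (1 + t ^ 2)) (1 / Real.sqrt (1 + t ^ 2))
      (by rw [div_pow, div_pow, hρ2]; field_simp; ring) (by positivity)
      (by rw [e2]; field_simp; ring)
    have e : -t / Real.sqrt (1 + t ^ 2) * b1 + 1 / Real.sqrt (1 + t ^ 2) * b2 =
        -((N1 * a3) * (1 + t ^ 2 + g ^ 2)) / Real.sqrt (1 + t ^ 2) := by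
      rw [g1, g2]; field_simp; ring
    rw [e] at c
    by_contra hcon
    apply c
    apply div_nonneg _ hρ.le
    nlinarith [mul_nonneg (neg_nonneg.2 (not_lt.1 hcon)) (show 0 ≤ 1 + t ^ 2 + g ^ 2 by positivity)]
  refine ⟨t, g, y, ?_⟩
  intro x1 x2 x3
  unfold InArc
  have h1 : x1 * N1 + x2 * N2 + x3 * N3 = N1 * (x1 + t * x2 + g * x3) := by rw [e2, e3]; ring
  have h2 : x1 * b1 + x2 * b2 + x3 * b3 = (N1 * a3) *
      (x1 * (t + g * y) + x2 * (g * t * y - g ^ 2 - 1) + x3 * (-y - t ^ 2 * y + t * g)) := by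
    rw [g1, g2, g3]; ring
  rw [h1, h2, mul_eq_zero, mul_nonneg_iff_of_pos_left hpos]
  constructor
  · rintro ⟨h | h, h'⟩
    · exact absurd h hN1ne
    · exact ⟨h, h'⟩
  · rintro ⟨h, h'⟩
    exact ⟨Or.inr h, h'⟩

end algebra


section coords

variable (b : OrthonormalBasis (Fin 3) ℝ E3)

/-- vector with given coordinates -/
noncomputable def mk (x1 x2 x3 : ℝ) : E3 := x1 • b 0 + x2 • b 1 + x3 • b 2

lemma inner_mk (x1 x2 x3 y1 y2 y3 : ℝ) :
    inner ℝ (mk b x1 x2 x3) (mk b y1 y2 y3) = x1 * y1 + x2 * y2 + x3 * y3 := by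
  have h00 : inner ℝ (b 0) (b 0) = (1 : ℝ) := by simp
  have h11 : inner ℝ (b 1) (b 1) = (1 : ℝ) := by simp
  have h22 : inner ℝ (b 2) (b 2) = (1 : ℝ) := by simp
  have h01 : inner ℝ (b 0) (b 1) = (0 : ℝ) := b.orthonormal.2 (by decide)
  have h02 : inner ℝ (b 0) (b 2) = (0 : ℝ) := b.orthonormal.2 (by decide)
  have h12 : inner ℝ (b 1) (b 2) = (0 : ℝ) := b.orthonormal.2 (by decide)
  have h10 : inner ℝ (b 1) (b 0) = (0 : ℝ) := b.orthonormal.2 (by decide)
  have h20 : inner ℝ (b 2) (b 0) = (0 : ℝ) := b.orthonormal.2 (by decide)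
  have h21 : inner ℝ (b 2) (b 1) = (0 : ℝ) := b.orthonormal.2 (by decide)
  simp only [mk, inner_add_left, inner_add_right, real_inner_smul_left, real_inner_smul_right,
    h00, h11, h22, h01, h02, h12, h10, h20, h21]
  ring

lemma exists_mk (x : E3) : ∃ x1 x2 x3 : ℝ, x = mk b x1 x2 x3 := by
  refine ⟨b.repr x 0, b.repr x 1, b.repr x 2, ?_⟩
  have := b.sum_repr x
  rw [Fin.sum_univ_three] at this
  rw [mk, this]

lemma mk_inj {x1 x2 x3 y1 y2 y3 : ℝ} (h : mk b x1 x2 x3 = mk b y1 y2 y3) :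
    x1 = y1 ∧ x2 = y2 ∧ x3 = y3 := by
  have h1 := congrArg (fun z => inner ℝ z (mk b 1 0 0)) h
  have h2 := congrArg (fun z => inner ℝ z (mk b 0 1 0)) h
  have h3 := congrArg (fun z => inner ℝ z (mk b 0 0 1)) h
  simp only [inner_mk] at h1 h2 h3
  exact ⟨by linarith, by linarith, by linarith⟩

lemma norm_mk (x1 x2 x3 : ℝ) : ‖mk b x1 x2 x3‖ ^ 2 = x1 ^ 2 + x2 ^ 2 + x3 ^ 2 := by
  rw [← real_inner_self_eq_norm_sq, inner_mk]; ring

lemma comb_mk (p q a1 a2 a3 b1 b2 b3 : ℝ) :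
    p • mk b a1 a2 a3 + q • mk b b1 b2 b3 =
      mk b (p * a1 + q * b1) (p * a2 + q * b2) (p * a3 + q * b3) := by
  simp only [mk]
  module

/-- membership in a closed half circle -/
lemma mem_half {a1 a2 a3 b1 b2 b3 : ℝ} (haa : a1 ^ 2 + a2 ^ 2 + a3 ^ 2 = 1)
    (hbb : b1 ^ 2 + b2 ^ 2 + b3 ^ 2 = 1) (hab : a1 * b1 + a2 * b2 + a3 * b3 = 0)
    {x1 x2 x3 : ℝ} (hx : x1 ^ 2 + x2 ^ 2 + x3 ^ 2 = 1) :
    mk b x1 x2 x3 ∈ pt (mk b a1 a2 a3) (mk b b1 b2 b3) '' Icc 0 π ↔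
      (x1 * (a2 * b3 - a3 * b2) + x2 * (a3 * b1 - a1 * b3) + x3 * (a1 * b2 - a2 * b1) = 0 ∧
        0 ≤ x1 * b1 + x2 * b2 + x3 * b3) := by
  constructor
  · rintro ⟨τ, hτ, h⟩
    simp only [pt] at h
    rw [comb_mk] at h
    obtain ⟨h1, h2, h3⟩ := mk_inj b h
    refine ⟨by rw [← h1, ← h2, ← h3]; ring, ?_⟩
    have : x1 * b1 + x2 * b2 + x3 * b3 = sin τ := by
      rw [← h1, ← h2, ← h3]
      linear_combination (cos τ) * hab + (sin τ) * hbb
    rw [this]
    exact Real.sin_nonneg_of_nonneg_of_le_pi hτ.1 hτ.2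
  · rintro ⟨hN, hb⟩
    have d11 : a1 ^ 2 + b1 ^ 2 + (a2 * b3 - a3 * b2) ^ 2 = 1 := by
      linear_combination (b1 ^ 2 + b2 ^ 2 + b3 ^ 2 - b1 ^ 2) * haa + (1 - a1 ^ 2) * hbb +
        (2 * a1 * b1 - (a1 * b1 + a2 * b2 + a3 * b3)) * hab
    have d22 : a2 ^ 2 + b2 ^ 2 + (a3 * b1 - a1 * b3) ^ 2 = 1 := by
      linear_combination (b1 ^ 2 + b2 ^ 2 + b3 ^ 2 - b2 ^ 2) * haa + (1 - a2 ^ 2) * hbb +
        (2 * a2 * b2 - (a1 * b1 + a2 * b2 + a3 * b3)) * hab
    have d33 : a3 ^ 2 + b3 ^ 2 + (a1 * b2 - a2 * b1) ^ 2 = 1 := by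
      linear_combination (b1 ^ 2 + b2 ^ 2 + b3 ^ 2 - b3 ^ 2) * haa + (1 - a3 ^ 2) * hbb +
        (2 * a3 * b3 - (a1 * b1 + a2 * b2 + a3 * b3)) * hab
    have d12 : a1 * a2 + b1 * b2 + (a2 * b3 - a3 * b2) * (a3 * b1 - a1 * b3) = 0 := by
      linear_combination (a2 * b1 + a1 * b2) * hab - a1 * a2 * hbb - b1 * b2 * haa
    have d23 : a2 * a3 + b2 * b3 + (a3 * b1 - a1 * b3) * (a1 * b2 - a2 * b1) = 0 := by
      linear_combination (a3 * b2 + a2 * b3) * hab - a2 * a3 * hbb - b2 * b3 * haa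
    have d13 : a1 * a3 + b1 * b3 + (a2 * b3 - a3 * b2) * (a1 * b2 - a2 * b1) = 0 := by
      linear_combination (a3 * b1 + a1 * b3) * hab - a1 * a3 * hbb - b1 * b3 * haa
    set N1 := a2 * b3 - a3 * b2
    set N2 := a3 * b1 - a1 * b3
    set N3 := a1 * b2 - a2 * b1
    obtain ⟨p, hp⟩ : ∃ p, p = x1 * a1 + x2 * a2 + x3 * a3 := ⟨_, rfl⟩
    obtain ⟨q, hq⟩ : ∃ q, q = x1 * b1 + x2 * b2 + x3 * b3 := ⟨_, rfl⟩
    have f1 : x1 = p * a1 + q * b1 := by
      rw [hp, hq]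
      linear_combination N1 * hN - x1 * d11 - x2 * d12 - x3 * d13
    have f2 : x2 = p * a2 + q * b2 := by
      rw [hp, hq]
      linear_combination N2 * hN - x1 * d12 - x2 * d22 - x3 * d23
    have f3 : x3 = p * a3 + q * b3 := by
      rw [hp, hq]
      linear_combination N3 * hN - x1 * d13 - x2 * d23 - x3 * d33
    have hpq : p ^ 2 + q ^ 2 = 1 := by
      have h1 : (p * a1 + q * b1) ^ 2 + (p * a2 + q * b2) ^ 2 + (p * a3 + q * b3) ^ 2 = 1 := by
        rw [← f1, ← f2, ← f3]; exact hx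
      linear_combination h1 - p ^ 2 * haa - q ^ 2 * hbb - 2 * p * q * hab
    rw [f1, f2, f3, ← comb_mk]
    refine mem_arc Real.pi_pos (by linarith [Real.pi_pos]) hpq ?_
    rw [Real.cos_pi_div_two, Real.sin_pi_div_two]
    rw [← hq] at hb
    linarith

/-- normalised point -/
noncomputable def P (x1 x2 x3 : ℝ) : E3 :=
  mk b ((√(x1 ^ 2 + x2 ^ 2 + x3 ^ 2))⁻¹ * x1) ((√(x1 ^ 2 + x2 ^ 2 + x3 ^ 2))⁻¹ * x2)
    ((√(x1 ^ 2 + x2 ^ 2 + x3 ^ 2))⁻¹ * x3)

lemma P_unit {x1 x2 x3 : ℝ} (h : 0 < x1 ^ 2 + x2 ^ 2 + x3 ^ 2) :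
    ((√(x1 ^ 2 + x2 ^ 2 + x3 ^ 2))⁻¹ * x1) ^ 2 + ((√(x1 ^ 2 + x2 ^ 2 + x3 ^ 2))⁻¹ * x2) ^ 2 +
      ((√(x1 ^ 2 + x2 ^ 2 + x3 ^ 2))⁻¹ * x3) ^ 2 = 1 := by
  have h1 : √(x1 ^ 2 + x2 ^ 2 + x3 ^ 2) ^ 2 = x1 ^ 2 + x2 ^ 2 + x3 ^ 2 := Real.sq_sqrt h.le
  have h2 : 0 < √(x1 ^ 2 + x2 ^ 2 + x3 ^ 2) := Real.sqrt_pos.2 h
  set r := √(x1 ^ 2 + x2 ^ 2 + x3 ^ 2)
  have e : (r⁻¹ * x1) ^ 2 + (r⁻¹ * x2) ^ 2 + (r⁻¹ * x3) ^ 2 =
    (r ^ 2)⁻¹ * (x1 ^ 2 + x2 ^ 2 + x3 ^ 2) := by ring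
  rw [e, ← h1]
  exact inv_mul_cancel₀ (by positivity)

lemma P_mem {x1 x2 x3 : ℝ} (h : 0 < x1 ^ 2 + x2 ^ 2 + x3 ^ 2) :
    P b x1 x2 x3 ∈ Metric.sphere (0 : E3) 1 := by
  rw [mem_sphere_zero_iff_norm]
  have h1 := norm_mk b ((√(x1 ^ 2 + x2 ^ 2 + x3 ^ 2))⁻¹ * x1)
    ((√(x1 ^ 2 + x2 ^ 2 + x3 ^ 2))⁻¹ * x2) ((√(x1 ^ 2 + x2 ^ 2 + x3 ^ 2))⁻¹ * x3)
  rw [P_unit h] at h1
  have h0 : 0 ≤ ‖P b x1 x2 x3‖ := norm_nonneg _
  have h2 : ‖P b x1 x2 x3‖ ^ 2 = 1 := h1
  nlinarith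

end coords

/-- no partition into closed half circles -/
theorem no_half :
    ¬ ∃ A : Set (Set E3),
        (∀ a ∈ A, ∃ u v : E3, ‖u‖ = 1 ∧ ‖v‖ = 1 ∧ inner ℝ u v = (0 : ℝ) ∧
            a = (fun t : ℝ => Real.cos t • u + Real.sin t • v) '' Set.Icc 0 π) ∧
        A.PairwiseDisjoint id ∧
        ⋃₀ A = Metric.sphere (0 : E3) 1 := by
  rintro ⟨A, harc, hdisj, hcov⟩
  -- a reference arc
  obtain ⟨A0, hA0, -⟩ : (EuclideanSpace.single 0 1 : E3) ∈ ⋃₀ A := by
    rw [hcov]; simp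
  obtain ⟨u0, v0, hu0, hv0, huv0, hA0eq⟩ := harc A0 hA0
  obtain ⟨b, hb⟩ : ∃ b : OrthonormalBasis (Fin 3) ℝ E3, b 0 = u0 ∧ b 1 = v0 := by
    have hcard : Module.finrank ℝ E3 = Fintype.card (Fin 3) := by simp
    have hor : Orthonormal ℝ (({0, 1} : Set (Fin 3)).restrict (![u0, v0, 0] : Fin 3 → E3)) := by
      rw [orthonormal_iff_ite]
      rintro ⟨i, hi⟩ ⟨j, hj⟩
      have hvu0 : inner ℝ v0 u0 = (0 : ℝ) := by rw [real_inner_comm]; exact huv0
      rcases hi with rfl | hi <;> rcases hj with rfl | hj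
      · change inner ℝ u0 u0 = ite _ _ _
        rw [if_pos rfl, real_inner_self_eq_norm_sq, hu0]; norm_num
      · rw [Set.mem_singleton_iff] at hj; subst hj
        change inner ℝ u0 v0 = ite _ _ _
        rw [if_neg (by simp), huv0]
      · rw [Set.mem_singleton_iff] at hi; subst hi
        change inner ℝ v0 u0 = ite _ _ _
        rw [if_neg (by simp), hvu0]
      · rw [Set.mem_singleton_iff] at hi hj; subst hi; subst hj
        change inner ℝ v0 v0 = ite _ _ _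
        rw [if_pos rfl, real_inner_self_eq_norm_sq, hv0]; norm_num
    obtain ⟨b, hb⟩ := hor.exists_orthonormalBasis_extension_of_card_eq hcard
    exact ⟨b, by simpa using hb 0 (by simp), by simpa using hb 1 (by simp)⟩
  have hA0mk : A0 = pt (mk b 1 0 0) (mk b 0 1 0) '' Icc 0 π := by
    rw [hA0eq]
    have e1 : mk b 1 0 0 = u0 := by simp [mk, hb.1]
    have e2 : mk b 0 1 0 = v0 := by simp [mk, hb.2]
    rw [e1, e2]; rfl
  have memA0 : ∀ x1 x2 x3 : ℝ, x1 ^ 2 + x2 ^ 2 + x3 ^ 2 = 1 →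
      (mk b x1 x2 x3 ∈ A0 ↔ (x3 = 0 ∧ 0 ≤ x2)) := by
    intro x1 x2 x3 hx
    rw [hA0mk, mem_half b (by norm_num) (by norm_num) (by norm_num) hx]
    constructor
    · rintro ⟨h1, h2⟩; exact ⟨by linarith, by linarith⟩
    · rintro ⟨h1, h2⟩; exact ⟨by rw [h1]; ring, by linarith⟩
  -- parameters of the other arcs
  have hpar : ∀ B ∈ A, B ≠ A0 → ∃ t g y : ℝ, ∀ x1 x2 x3 : ℝ, x1 ^ 2 + x2 ^ 2 + x3 ^ 2 = 1 →
      (mk b x1 x2 x3 ∈ B ↔ InArc t g y x1 x2 x3) := by
    intro B hB hne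
    obtain ⟨u, v, hu, hv, huv, hBeq⟩ := harc B hB
    obtain ⟨a1, a2, a3, rfl⟩ := exists_mk b u
    obtain ⟨b1, b2, b3, rfl⟩ := exists_mk b v
    have haa : a1 ^ 2 + a2 ^ 2 + a3 ^ 2 = 1 := by rw [← norm_mk b, hu]; norm_num
    have hbb : b1 ^ 2 + b2 ^ 2 + b3 ^ 2 = 1 := by rw [← norm_mk b, hv]; norm_num
    have hab : a1 * b1 + a2 * b2 + a3 * b3 = 0 := by rw [← inner_mk b, huv]
    have hBmem : ∀ x1 x2 x3 : ℝ, x1 ^ 2 + x2 ^ 2 + x3 ^ 2 = 1 →
        (mk b x1 x2 x3 ∈ B ↔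
      (x1 * (a2 * b3 - a3 * b2) + x2 * (a3 * b1 - a1 * b3) + x3 * (a1 * b2 - a2 * b1) = 0 ∧
        0 ≤ x1 * b1 + x2 * b2 + x3 * b3)) := by
      intro x1 x2 x3 hx
      rw [hBeq]
      exact mem_half b haa hbb hab hx
    have hdj : Disjoint B A0 := hdisj hB hA0 hne
    obtain ⟨t, g, y, hty⟩ := params haa hbb hab (by
      intro x1 x2 hx hx2 h1 h2
      have m1 : mk b x1 x2 0 ∈ A0 := (memA0 x1 x2 0 (by linarith)).2 ⟨rfl, hx2⟩
      have m2 : mk b x1 x2 0 ∈ B := (hBmem x1 x2 0 (by linarith)).2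
        ⟨by linarith, by linarith⟩
      exact Set.disjoint_left.1 hdj m2 m1)
    exact ⟨t, g, y, fun x1 x2 x3 hx => (hBmem x1 x2 x3 hx).trans (hty x1 x2 x3)⟩
  choose! T G Yf hTG using hpar
  have hP : ∀ B ∈ A, B ≠ A0 → ∀ x1 x2 x3 : ℝ, 0 < x1 ^ 2 + x2 ^ 2 + x3 ^ 2 →
      (P b x1 x2 x3 ∈ B ↔ InArc (T B) (G B) (Yf B) x1 x2 x3) := by
    intro B hB hne x1 x2 x3 hx
    rw [P, hTG B hB hne _ _ _ (P_unit hx), InArc.scale (by positivity)]
  have hPA0 : ∀ x1 x2 x3 : ℝ, 0 < x1 ^ 2 + x2 ^ 2 + x3 ^ 2 → P b x1 x2 x3 ∈ A0 →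
      x3 = 0 ∧ 0 ≤ x2 := by
    intro x1 x2 x3 hx h
    rw [P, memA0 _ _ _ (P_unit hx)] at h
    have hr : 0 < (√(x1 ^ 2 + x2 ^ 2 + x3 ^ 2))⁻¹ := by positivity
    refine ⟨?_, ?_⟩
    · rcases mul_eq_zero.1 h.1 with h1 | h1
      · exact absurd h1 hr.ne'
      · exact h1
    · exact (mul_nonneg_iff_of_pos_left hr).1 h.2
  -- covering
  have hcovP : ∀ x1 x2 x3 : ℝ, 0 < x1 ^ 2 + x2 ^ 2 + x3 ^ 2 → ¬ (x3 = 0 ∧ 0 ≤ x2) →
      ∃ B ∈ A, B ≠ A0 ∧ InArc (T B) (G B) (Yf B) x1 x2 x3 := by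
    intro x1 x2 x3 hx hn
    have : P b x1 x2 x3 ∈ ⋃₀ A := by rw [hcov]; exact P_mem b hx
    obtain ⟨B, hB, hPB⟩ := this
    have hne : B ≠ A0 := by
      rintro rfl
      exact hn (hPA0 _ _ _ hx hPB)
    exact ⟨B, hB, hne, (hP B hB hne _ _ _ hx).1 hPB⟩
  have hex : ∀ s : ℝ, ∃ B ∈ A, B ≠ A0 ∧ T B = s := by
    intro s
    obtain ⟨B, hB, hne, h⟩ := hcovP s (-1) 0 (by positivity) (by rintro ⟨-, h⟩; linarith)
    exact ⟨B, hB, hne, (inArc_eq.1 h).symm⟩
  choose Bs hBs hBsne hBsT using hex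
  have huniq : ∀ B ∈ A, B ≠ A0 → Bs (T B) = B := by
    intro B hB hne
    by_contra hcon
    have hdj : Disjoint (Bs (T B)) B := hdisj (hBs _) hB hcon
    have m1 : P b (T B) (-1) 0 ∈ B := (hP B hB hne _ _ _ (by positivity)).2 (inArc_eq.2 rfl)
    have m2 : P b (T B) (-1) 0 ∈ Bs (T B) :=
      (hP _ (hBs _) (hBsne _) _ _ _ (by positivity)).2 (inArc_eq.2 (hBsT _).symm)
    exact Set.disjoint_left.1 hdj m2 m1
  have hdual : Dual (fun t => G (Bs t)) (fun t => Yf (Bs t)) := by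
    refine ⟨?_, ?_, ?_⟩
    · intro s t hst
      have hne : Bs s ≠ Bs t := by
        intro h
        apply hst
        rw [← hBsT s, ← hBsT t, h]
      have hdj : Disjoint (Bs s) (Bs t) := hdisj (hBs _) (hBs _) hne
      have hts : t - s ≠ 0 := sub_ne_zero.2 hst.symm
      obtain ⟨m, hm⟩ : ∃ m, m = (G (Bs t) - G (Bs s)) / (t - s) := ⟨_, rfl⟩
      have hm' : G (Bs t) - G (Bs s) = m * (t - s) := by rw [hm]; field_simp
      have c1 : ¬ (Yf (Bs s) ≤ m ∧ Yf (Bs t) ≤ m) := by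
        rintro ⟨h1, h2⟩
        have m1 : P b (-(G (Bs s) - m * s)) (-m) 1 ∈ Bs s :=
          (hP _ (hBs _) (hBsne _) _ _ _ (by positivity)).2
            (inArc_up.2 ⟨by rw [hBsT]; ring, h1⟩)
        have m2 : P b (-(G (Bs s) - m * s)) (-m) 1 ∈ Bs t :=
          (hP _ (hBs _) (hBsne _) _ _ _ (by positivity)).2
            (inArc_up.2 ⟨by rw [hBsT]; linarith, h2⟩)
        exact Set.disjoint_left.1 hdj m1 m2
      have c2 : ¬ (m ≤ Yf (Bs s) ∧ m ≤ Yf (Bs t)) := by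
        rintro ⟨h1, h2⟩
        have m1 : P b (G (Bs s) - m * s) m (-1) ∈ Bs s :=
          (hP _ (hBs _) (hBsne _) _ _ _ (by positivity)).2
            (inArc_down.2 ⟨by rw [hBsT]; ring, h1⟩)
        have m2 : P b (G (Bs s) - m * s) m (-1) ∈ Bs t :=
          (hP _ (hBs _) (hBsne _) _ _ _ (by positivity)).2
            (inArc_down.2 ⟨by rw [hBsT]; linarith, h2⟩)
        exact Set.disjoint_left.1 hdj m1 m2
      have e : (G (Bs t) - G (Bs s) - Yf (Bs s) * (t - s)) *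
          (G (Bs s) - G (Bs t) - Yf (Bs t) * (s - t)) =
          (t - s) ^ 2 * (-((m - Yf (Bs s)) * (m - Yf (Bs t)))) := by
        have h1 : G (Bs s) - G (Bs t) = - (m * (t - s)) := by linarith
        rw [hm', h1]; ring
      change 0 < (G (Bs t) - G (Bs s) - Yf (Bs s) * (t - s)) *
          (G (Bs s) - G (Bs t) - Yf (Bs t) * (s - t))
      rw [e]
      apply mul_pos (by positivity)
      rw [neg_pos]
      rcases le_or_gt (Yf (Bs s)) m with h1 | h1
      · have h2 : m < Yf (Bs t) := by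
          by_contra hcon
          exact c1 ⟨h1, not_lt.1 hcon⟩
        have h3 : Yf (Bs s) < m := by
          by_contra hcon
          exact c2 ⟨not_lt.1 hcon, h2.le⟩
        exact mul_neg_of_pos_of_neg (by linarith) (by linarith)
      · have h2 : Yf (Bs t) < m := by
          by_contra hcon
          exact c2 ⟨h1.le, not_lt.1 hcon⟩
        exact mul_neg_of_neg_of_pos (by linarith) (by linarith)
    · intro Y c
      obtain ⟨B, hB, hne, h⟩ := hcovP (-c) (-Y) 1 (by positivity)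
        (by rintro ⟨h, -⟩; norm_num at h)
      have h' := inArc_up.1 h
      refine ⟨T B, ?_, ?_⟩
      · change G (Bs (T B)) = _
        rw [huniq B hB hne]; exact h'.1
      · change Yf (Bs (T B)) ≤ _
        rw [huniq B hB hne]; exact h'.2
    · intro Y c
      obtain ⟨B, hB, hne, h⟩ := hcovP c Y (-1) (by positivity)
        (by rintro ⟨h, -⟩; norm_num at h)
      have h' := inArc_down.1 h
      refine ⟨T B, ?_, ?_⟩
      · change G (Bs (T B)) = _
        rw [huniq B hB hne]; exact h'.1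
      · change _ ≤ Yf (Bs (T B))
        rw [huniq B hB hne]; exact h'.2
  exact hdual.false


/-- The unit sphere cannot be partitioned into closed great-circle arcs of a common length `L`
with `π ≤ L < 2π`. -/
theorem result (L : ℝ) (hL1 : Real.pi ≤ L) (hL2 : L < 2 * Real.pi) :
    ¬ ∃ A : Set (Set (EuclideanSpace ℝ (Fin 3))),
        (∀ a ∈ A, ∃ u v : EuclideanSpace ℝ (Fin 3),
            ‖u‖ = 1 ∧ ‖v‖ = 1 ∧ inner ℝ u v = (0 : ℝ) ∧
            a = (fun t : ℝ => Real.cos t • u + Real.sin t • v) '' Set.Icc 0 L) ∧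
        A.PairwiseDisjoint id ∧
        ⋃₀ A = Metric.sphere (0 : EuclideanSpace ℝ (Fin 3)) 1 := by
  rcases hL1.eq_or_lt with h | h
  · subst h
    exact no_half
  · exact no_long L h hL2

end Pool.Agent.Results.MP_4d4852_co.NoLongArcs
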